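import Pool.Agent.H77.KG.Targets

/-!
Row BRU of kgr_modules: the Bruhat decomposition.
-/

set_option autoImplicit false

open Set Pool.Agent.H77.BC Pool.Agent.H77.BD Pool.Agent.H77.KG

namespace Pool.Agent.H83.KGR

section bru

variable {l : ℕ} {C : Matrix (Fin l) (Fin l) ℤ} {F Γ : Type} [Field F] [Group Γ]
  {x : Root C → F → Γ} {τ : (Fin l → Fˣ) →* Γ}

/-- the set of the products -/
private def SS (x : Root C → F → Γ) (τ : (Fin l → Fˣ) →* Γ) : Set Γ :=
  {g | ∃ b ∈ Bo x τ, ∃ n w, Wn x τ n w ∧ ∃ b' ∈ Bo x τ, g = b * n * b'}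

private theorem bo_u {u : Γ} (hu : u ∈ Ug x IsPos) : u ∈ Bo x τ :=
  ⟨1, u, hu, by rw [map_one, one_mul]⟩

private theorem bo_t (c : Fin l → Fˣ) : τ c ∈ Bo x τ :=
  ⟨c, 1, one_mem _, by rw [mul_one]⟩

private theorem bo_one : (1 : Γ) ∈ Bo x τ := bo_u (one_mem _)

private theorem bo_x (β : Root C) (hβ : IsPos β) (t : F) : x β t ∈ Bo x τ :=
  bo_u (Subgroup.subset_closure ⟨β, t, hβ, rfl⟩)

private theorem bo_mul (cd : CD x τ) {b b' : Γ} (hb : b ∈ Bo x τ) (hb' : b' ∈ Bo x τ) :
    b * b' ∈ Bo x τ := by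
  obtain ⟨c, u, hu, rfl⟩ := hb
  obtain ⟨c', u', hu', rfl⟩ := hb'
  refine ⟨c * c', (τ c'⁻¹ * u * (τ c'⁻¹)⁻¹) * u',
    mul_mem (Pool.Agent.H77.BDS.a_UIC cd _ _ u hu) hu', ?_⟩
  rw [map_mul, map_inv]
  group

private theorem add_zero' (cd : CD x τ) (β : Root C) : x β 0 = 1 := by
  have h := cd.add β 0 0
  rw [add_zero] at h
  exact (mul_eq_left.mp h.symm)

private theorem add_neg' (cd : CD x τ) (β : Root C) (t : F) : x β (-t) = (x β t)⁻¹ := by
  have h := cd.add β (-t) t
  rw [neg_add_cancel, add_zero' cd] at h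
  exact eq_inv_of_mul_eq_one_left h.symm

private theorem tor' (cd : CD x τ) (c : Fin l → Fˣ) (β : Root C) (t : F) :
    τ c * x β t * (τ c)⁻¹ = x β ((chi C c β.1 : F) * t) := by
  rw [cd.tor, mul_inv_cancel_right]

private theorem wn_one : Wn x τ 1 (AddEquiv.refl _) :=
  ⟨fun c => ⟨c, by group⟩, fun c => ⟨c, by group⟩, fun γ => ⟨γ, rfl, fun t => ⟨t, by group⟩,
    fun t => ⟨t, by group⟩⟩⟩

private theorem wn_mul {n n' : Γ} {w w' : (Fin l → ℤ) ≃+ (Fin l → ℤ)} (h : Wn x τ n w)
    (h' : Wn x τ n' w') : Wn x τ (n * n') (w'.trans w) := by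
  refine ⟨fun c => ?_, fun c => ?_, fun γ => ?_⟩
  · obtain ⟨c1, h1⟩ := h'.1 c
    obtain ⟨c2, h2⟩ := h.1 c1
    refine ⟨c2, ?_⟩
    rw [← h2, ← h1]
    group
  · obtain ⟨c1, h1⟩ := h.2.1 c
    obtain ⟨c2, h2⟩ := h'.2.1 c1
    refine ⟨c2, ?_⟩
    rw [← h2, ← h1]
    group
  · obtain ⟨γ1, h1, h2, h3⟩ := h'.2.2 γ
    obtain ⟨γ2, h4, h5, h6⟩ := h.2.2 γ1
    refine ⟨γ2, ?_, fun t => ?_, fun t => ?_⟩
    · rw [h4, h1]
      rfl
    · obtain ⟨t1, ht1⟩ := h2 t
      obtain ⟨t2, ht2⟩ := h5 t1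
      refine ⟨t2, ?_⟩
      rw [← ht2, ← ht1]
      group
    · obtain ⟨t1, ht1⟩ := h6 t
      obtain ⟨t2, ht2⟩ := h3 t1
      refine ⟨t2, ?_⟩
      rw [← ht2, ← ht1]
      group

private theorem ss_left (cd : CD x τ) {b g : Γ} (hb : b ∈ Bo x τ) (hg : g ∈ SS x τ) :
    b * g ∈ SS x τ := by
  obtain ⟨b1, hb1, n, w, hn, b2, hb2, rfl⟩ := hg
  exact ⟨b * b1, bo_mul cd hb hb1, n, w, hn, b2, hb2, by group⟩

private theorem ss_right (cd : CD x τ) {b g : Γ} (hb : b ∈ Bo x τ) (hg : g ∈ SS x τ) :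
    g * b ∈ SS x τ := by
  obtain ⟨b1, hb1, n, w, hn, b2, hb2, rfl⟩ := hg
  exact ⟨b1, hb1, n, w, hn, b2 * b, bo_mul cd hb2 hb, by group⟩

private theorem ss_wn {n : Γ} {w : (Fin l → ℤ) ≃+ (Fin l → ℤ)} (h : Wn x τ n w) :
    n ∈ SS x τ := ⟨1, bo_one, n, w, h, 1, bo_one, by group⟩

/-- every root is the image of a root -/
private theorem wn_surj (hC : Cartan C) {n : Γ} {w : (Fin l → ℤ) ≃+ (Fin l → ℤ)}
    (h : Wn x τ n w) (α : Root C) : ∃ γ : Root C, w γ.1 = α.1 := by
  have := finRoot hC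
  choose φ hφ using h.2.2
  have hinj : Function.Injective φ := by
    intro a b hab
    have h1 := (hφ a).1
    have h2 := (hφ b).1
    rw [hab, h2] at h1
    exact Subtype.ext (w.injective h1.symm)
  obtain ⟨γ, hγ⟩ := Finite.surjective_of_injective hinj α
  exact ⟨γ, by rw [← (hφ γ).1, hγ]⟩

/-- the transport of one root group -/
private theorem wn_root {n : Γ} {w : (Fin l → ℤ) ≃+ (Fin l → ℤ)} (h : Wn x τ n w)
    {γ α : Root C} (hγ : w γ.1 = α.1) :
    (∀ t, ∃ t', n * x γ t * n⁻¹ = x α t') ∧ ∀ t, ∃ t', n⁻¹ * x α t * n = x γ t' := by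
  obtain ⟨γ', h1, h2, h3⟩ := h.2.2 γ
  have h4 : γ' = α := Subtype.ext (by rw [h1, hγ])
  subst h4
  exact ⟨h2, h3⟩

end bru

theorem pf_BRU (hNEL : T_NEL) : T_BRU := by
  intro l C hC F Γ _ _ _ x τ cd
  have hPOS := Pool.Agent.H77.BDS.a_POS hC
  -- the step for the element of a simple reflection
  have step : ∀ (i : Fin l) (n0 : Γ) (w0 : (Fin l → ℤ) ≃+ (Fin l → ℤ)), Wn x τ n0 w0 →
      (∀ v, w0 v = v - ip C v (si i) • si i) → (∃ c, n0 * n0 = τ c) →
      (∀ t : F, t ≠ 0 → ∃ a c b, x (ng (sr hC i)) t =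
        x (sr hC i) a * τ c * n0 * x (sr hC i) b) → ∀ g ∈ SS x τ, n0 * g ∈ SS x τ := by
    intro i n0 w0 hW0 hw0 hc0 hY g hg
    have hipαα : ip C (si i) (si i) = 2 := by rw [ip_si_si, hC.diag]
    have hαpos : IsPos (sr hC i) := by
      intro j
      rw [sr_val]
      unfold si
      by_cases hj : j = i
      · rw [hj, Pi.single_eq_same]
        norm_num
      · rw [Pi.single_eq_of_ne hj]
    have hα' : w0 (sr hC i).1 = (ng (sr hC i)).1 := by
      rw [hw0, sr_val, hipαα, ng_val, sr_val, two_smul]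
      abel
    -- the roots which stay positive
    have hU' : ∀ u ∈ Ug x (fun β => IsPos β ∧ β.1 ≠ si i),
        n0 * u * n0⁻¹ ∈ Ug x (fun β => IsPos β ∧ β.1 ≠ si i) := by
      intro u hu
      refine Subgroup.closure_induction (p := fun u _ =>
        n0 * u * n0⁻¹ ∈ Ug x (fun β => IsPos β ∧ β.1 ≠ si i)) ?_ ?_ ?_ ?_ hu
      · rintro g ⟨β, t, ⟨hβ, hβi⟩, rfl⟩
        obtain ⟨β', h1, h2, -⟩ := hW0.2.2 β
        obtain ⟨t', ht'⟩ := h2 t
        rw [ht']
        -- a coefficient outside `i`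
        have hj : ∃ j, j ≠ i ∧ 0 < β.1 j := by
          by_contra hcon
          push Not at hcon
          have h3 : β.1 = β.1 i • si i := by
            funext j
            rw [Pi.smul_apply, smul_eq_mul]
            unfold si
            by_cases hj : j = i
            · rw [hj, Pi.single_eq_same, mul_one]
            · rw [Pi.single_eq_of_ne hj, mul_zero]
              exact le_antisymm (hcon j hj) (hβ j)
          have h4 := β.2
          rw [h3, ip_smul_left, ip_smul_right, hipαα] at h4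
          have h5 : β.1 i * β.1 i = 1 := by linarith
          have h6 : β.1 i = 1 := by
            rcases mul_self_eq_one_iff.mp h5 with h | h
            · exact h
            · have := hβ i
              omega
          rw [h6, one_smul] at h3
          exact hβi h3
        obtain ⟨j, hji, hj⟩ := hj
        have h3 : β'.1 j = β.1 j := by
          rw [h1, hw0, Pi.sub_apply, Pi.smul_apply, smul_eq_mul]
          unfold si
          rw [Pi.single_eq_of_ne hji, mul_zero, sub_zero]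
        refine Subgroup.subset_closure ⟨β', t', ⟨?_, ?_⟩, rfl⟩
        · rcases hPOS.1 β' with h | h
          · exact h
          · have := h j
            omega
        · intro h4
          rw [h4] at h3
          unfold si at h3
          rw [Pi.single_eq_of_ne hji] at h3
          omega
      · simp [one_mem]
      · intro a b _ _ ha hb
        have : n0 * (a * b) * n0⁻¹ = (n0 * a * n0⁻¹) * (n0 * b * n0⁻¹) := by group
        rw [this]
        exact mul_mem ha hb
      · intro a _ ha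
        have : n0 * a⁻¹ * n0⁻¹ = (n0 * a * n0⁻¹)⁻¹ := by group
        rw [this]
        exact inv_mem ha
    have hU'pos : ∀ u ∈ Ug x (fun β => IsPos β ∧ β.1 ≠ si i), u ∈ Ug x IsPos := by
      intro u hu
      refine Subgroup.closure_mono ?_ hu
      rintro g ⟨β, t, ⟨hβ, -⟩, rfl⟩
      exact ⟨β, t, hβ, rfl⟩
    obtain ⟨b, hb, n, w, hn, b', hb', rfl⟩ := hg
    obtain ⟨c, u, hu, rfl⟩ := hb
    obtain ⟨u', hu', s, rfl⟩ := (Pool.Agent.H77.BDS.a_UIA hC cd i).1 u hu
    obtain ⟨c1, hc1⟩ := hW0.1 c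
    -- the core
    have core : n0 * x (sr hC i) s * n ∈ SS x τ := by
      obtain ⟨γ, hγ⟩ := wn_surj hC hn (sr hC i)
      rcases hPOS.1 γ with hp | hp
      · obtain ⟨s', hs'⟩ := (wn_root hn hγ).2 s
        have h1 : n0 * x (sr hC i) s * n = (n0 * n) * x γ s' := by
          rw [← hs']
          group
        rw [h1]
        exact ss_right cd (bo_x γ hp s') (ss_wn (wn_mul hW0 hn))
      · by_cases hs : s = 0
        · rw [hs, add_zero' cd, mul_one]
          exact ss_wn (wn_mul hW0 hn)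
        · obtain ⟨s', hs'⟩ := (wn_root hW0 hα').1 s
          have hs'0 : s' ≠ 0 := by
            intro h0
            rw [h0, add_zero' cd] at hs'
            have h1 : x (sr hC i) s = 1 := by
              have h2 : x (sr hC i) s = n0⁻¹ * (n0 * x (sr hC i) s * n0⁻¹) * n0 := by group
              rw [h2, hs']
              group
            exact hs (cd.inj _ _ _ (h1.trans (add_zero' cd _).symm))
          obtain ⟨a, c2, b2, hab⟩ := hY s' hs'0
          obtain ⟨b3, hb3⟩ := (wn_root hW0 hα').1 b2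
          obtain ⟨c3, hc3⟩ := hc0
          obtain ⟨c4, hc4⟩ := hn.2.1 c3
          have hγ' : w (ng γ).1 = (ng (sr hC i)).1 := by
            rw [ng_val, map_neg, hγ, ng_val]
          obtain ⟨t5, ht5⟩ := (wn_root hn hγ').2 b3
          have hpos : IsPos (ng γ) := fun j => by
            rw [ng_val, Pi.neg_apply]
            have := hp j
            omega
          have h1 : n0 * x (sr hC i) s * n =
              (x (sr hC i) a * τ c2) * n * (x (ng γ) t5 * τ c4) := by
            have e1 : n0 * x (sr hC i) s * n = (n0 * x (sr hC i) s * n0⁻¹) * n0 * n := by group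
            rw [e1, hs', hab]
            have e2 : x (sr hC i) a * τ c2 * n0 * x (sr hC i) b2 * n0 * n =
                x (sr hC i) a * τ c2 * (n0 * x (sr hC i) b2 * n0⁻¹) * (n0 * n0) * n := by group
            rw [e2, hb3, hc3]
            have e3 : x (sr hC i) a * τ c2 * x (ng (sr hC i)) b3 * τ c3 * n =
                x (sr hC i) a * τ c2 * n * (n⁻¹ * x (ng (sr hC i)) b3 * n) *
                  (n⁻¹ * τ c3 * n) := by group
            rw [e3, ht5, hc4]
            group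
          rw [h1]
          exact ⟨_, bo_mul cd (bo_x _ hαpos a) (bo_t c2), n, w, hn, _,
            bo_mul cd (bo_x _ hpos t5) (bo_t c4), rfl⟩
    have h1 : n0 * (τ c * (u' * x (sr hC i) s) * n * b') =
        ((n0 * τ c * n0⁻¹) * (n0 * u' * n0⁻¹)) * ((n0 * x (sr hC i) s * n) * b') := by group
    rw [h1, hc1]
    exact ss_left cd (bo_mul cd (bo_t c1) (bo_u (hU'pos _ (hU' _ hu')))) (ss_right cd hb' core)
  have simp1 : ∀ (i : Fin l) (t : F), ∀ g ∈ SS x τ, x (sr hC i) t * g ∈ SS x τ := by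
    intro i t g hg
    refine ss_left cd (bo_x _ ?_ t) hg
    intro j
    rw [sr_val]
    unfold si
    by_cases hj : j = i
    · rw [hj, Pi.single_eq_same]
      norm_num
    · rw [Pi.single_eq_of_ne hj]
  have simp2 : ∀ (i : Fin l) (t : F), ∀ g ∈ SS x τ, x (ng (sr hC i)) t * g ∈ SS x τ := by
    intro i t g hg
    by_cases ht : t = 0
    · rw [ht, add_zero' cd, one_mul]
      exact hg
    · obtain ⟨n0, w0, hW0, hw0, hc0, -, hY⟩ := hNEL hC cd i
      obtain ⟨a, c, b, hab⟩ := hY t ht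
      have h1 := step i n0 w0 hW0 hw0 hc0 hY _ (simp1 i b g hg)
      have h2 := simp1 i a _ (ss_left cd (bo_t c) h1)
      rw [hab]
      convert h2 using 1
      group
  intro g
  have hg : g ∈ Subgroup.closure
      {g | ∃ (i : Fin l) (t : F), g = x (sr hC i) t ∨ g = x (ng (sr hC i)) t} := by
    rw [Pool.Agent.H77.BDS.a_GEN hC cd]
    exact Subgroup.mem_top g
  refine Subgroup.closure_induction_left (p := fun g _ => g ∈ SS x τ) ?_ ?_ ?_ hg
  · exact ss_wn wn_one
  · rintro y ⟨i, t, rfl | rfl⟩ z _ hz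
    · exact simp1 i t z hz
    · exact simp2 i t z hz
  · rintro y ⟨i, t, rfl | rfl⟩ z _ hz
    · rw [← add_neg' cd]
      exact simp1 i (-t) z hz
    · rw [← add_neg' cd]
      exact simp2 i (-t) z hz

end Pool.Agent.H83.KGR
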