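import Pool.Agent.H77.KG.Targets

/-!
Row NEL of kgr_modules: the elements of the simple reflections.
-/

set_option autoImplicit false

open Set Pool.Agent.H77.BC Pool.Agent.H77.BD Pool.Agent.H77.KG

namespace Pool.Agent.H83.KGR

section sl2

variable {Γ F : Type} [Group Γ] [Field F]

private theorem X0 {X : F → Γ} (hX : ∀ s t, X (s + t) = X s * X t) : X 0 = 1 := by
  have h := hX 0 0
  rw [add_zero] at h
  exact (mul_eq_left.mp h.symm)

private theorem Xneg {X : F → Γ} (hX : ∀ s t, X (s + t) = X s * X t) (s : F) :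
    X (-s) = (X s)⁻¹ := by
  have h := hX (-s) s
  rw [neg_add_cancel, X0 hX] at h
  exact eq_inv_of_mul_eq_one_left h.symm

/-- (a) -/
private theorem na {X Y : F → Γ} {h : Fˣ → Γ} (hX : ∀ s t, X (s + t) = X s * X t)
    (hY : ∀ s t, Y (s + t) = Y s * Y t)
    (hsl : ∀ (s t : F) (c : Fˣ), (c : F) = 1 - s * t → X s * Y t = Y (t / c) * h c * X (s / c))
    (hh : ∀ (a : Fˣ) (t : F), h a * X t = X ((a : F) ^ 2 * t) * h a) (a : Fˣ) :
    X a * Y (a : F)⁻¹ * X a = h a * (X 1 * Y 1 * X 1) := by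
  have ha : (a : F) ≠ 0 := a.ne_zero
  have h1 : X ((a : F) - 1) * Y (-1) = Y (-1 / (a : F)) * h a * X (((a : F) - 1) / (a : F)) :=
    hsl _ _ a (by ring)
  have h2 : (X 1 * Y 1 * X 1)⁻¹ = X (-1) * Y (-1) * X (-1) := by
    rw [Xneg hX, Xneg hY]
    group
  rw [← mul_inv_eq_iff_eq_mul, h2]
  have h3 : X (a : F) * X (-1) = X ((a : F) - 1) := by rw [← hX, sub_eq_add_neg]
  have h4 : Y (a : F)⁻¹ * Y (-1 / (a : F)) = 1 := by
    rw [← hY, ← X0 hY]
    congr 1
    field_simp
    ring
  have h5 : X (((a : F) - 1) / (a : F)) * X (-1) = X (-1 / (a : F)) := by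
    rw [← hX]
    congr 1
    field_simp
    ring
  have h6 : h a * X (-1 / (a : F)) = X (-(a : F)) * h a := by
    rw [hh]
    congr 2
    field_simp
  calc X (a : F) * Y (a : F)⁻¹ * X (a : F) * (X (-1) * Y (-1) * X (-1))
      = X (a : F) * Y (a : F)⁻¹ * (X (a : F) * X (-1) * Y (-1)) * X (-1) := by group
    _ = X (a : F) * (Y (a : F)⁻¹ * Y (-1 / (a : F))) * h a *
          (X (((a : F) - 1) / (a : F)) * X (-1)) := by
        rw [h3, h1]
        group
    _ = X (a : F) * (h a * X (-1 / (a : F))) := by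
        rw [h4, h5]
        group
    _ = h a := by
        rw [h6, Xneg hX]
        group

/-- (c) -/
private theorem nX {X Y : F → Γ} {h : Fˣ → Γ} [Infinite F] (hX : ∀ s t, X (s + t) = X s * X t)
    (hY : ∀ s t, Y (s + t) = Y s * Y t)
    (hsl : ∀ (s t : F) (c : Fˣ), (c : F) = 1 - s * t → X s * Y t = Y (t / c) * h c * X (s / c))
    (hh : ∀ (a : Fˣ) (t : F), h a * X t = X ((a : F) ^ 2 * t) * h a)
    (hm : ∀ a b, h (a * b) = h a * h b) (s : F) :
    X 1 * Y 1 * X 1 * X s * (X 1 * Y 1 * X 1)⁻¹ = Y s := by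
  have h2 : (X 1 * Y 1 * X 1)⁻¹ = X (-1) * Y (-1) * X (-1) := by
    rw [Xneg hX, Xneg hY]
    group
  have key : ∀ s : F, s ≠ -1 → X 1 * Y 1 * X 1 * X s * (X 1 * Y 1 * X 1)⁻¹ = Y s := by
    intro s hs
    have hs' : 1 + s ≠ 0 := fun h' => hs (by linear_combination h')
    have h1 : X s * Y (-1) = Y (-1 / (1 + s)) * h (Units.mk0 (1 + s) hs') * X (s / (1 + s)) := by
      have := hsl s (-1) (Units.mk0 (1 + s) hs') (by rw [Units.val_mk0]; ring)
      rwa [Units.val_mk0] at this
    have h3 : Y 1 * Y (-1 / (1 + s)) = Y (s / (1 + s)) := by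
      rw [← hY]
      congr 1
      field_simp
      ring
    have h4 : X 1 * Y (s / (1 + s)) =
        Y s * h (Units.mk0 (1 + s) hs')⁻¹ * X (1 + s) := by
      have := hsl 1 (s / (1 + s)) (Units.mk0 (1 + s) hs')⁻¹ (by
        rw [Units.val_inv_eq_inv_val, Units.val_mk0]
        field_simp
        ring)
      rw [this, Units.val_inv_eq_inv_val, Units.val_mk0]
      congr 2
      · congr 2
        field_simp
      · field_simp
    have h5 : X (s / (1 + s)) * X (-1) = X (-1 / (1 + s)) := by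
      rw [← hX]
      congr 1
      field_simp
      ring
    have h6 : h (Units.mk0 (1 + s) hs') * X (-1 / (1 + s)) =
        X (-(1 + s)) * h (Units.mk0 (1 + s) hs') := by
      rw [hh, Units.val_mk0]
      congr 2
      field_simp
    have h7 : h (Units.mk0 (1 + s) hs')⁻¹ * h (Units.mk0 (1 + s) hs') = 1 := by
      rw [← hm, inv_mul_cancel]
      have := hm 1 1
      rw [one_mul] at this
      exact (mul_eq_left.mp this.symm)
    have h8 : X 1 * X s * X (-1) = X s := by
      rw [← hX, ← hX]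
      congr 1
      ring
    calc X 1 * Y 1 * X 1 * X s * (X 1 * Y 1 * X 1)⁻¹
        = X 1 * Y 1 * (X 1 * X s * X (-1)) * Y (-1) * X (-1) := by
          rw [h2]
          group
      _ = X 1 * Y 1 * (X s * Y (-1)) * X (-1) := by
          rw [h8]
          group
      _ = X 1 * (Y 1 * Y (-1 / (1 + s))) * h (Units.mk0 (1 + s) hs') *
            (X (s / (1 + s)) * X (-1)) := by
          rw [h1]
          group
      _ = (X 1 * Y (s / (1 + s))) * (h (Units.mk0 (1 + s) hs') * X (-1 / (1 + s))) := by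
          rw [h3, h5]
          group
      _ = Y s * h (Units.mk0 (1 + s) hs')⁻¹ * (X (1 + s) * X (-(1 + s))) *
            h (Units.mk0 (1 + s) hs') := by
          rw [h4, h6]
          group
      _ = Y s * (h (Units.mk0 (1 + s) hs')⁻¹ * h (Units.mk0 (1 + s) hs')) := by
          rw [Xneg hX]
          group
      _ = Y s := by rw [h7, mul_one]
  classical
  by_cases hs : s = -1
  · obtain ⟨a, ha⟩ := Infinite.exists_notMem_finset ({-1, 0} : Finset F)
    simp only [Finset.mem_insert, Finset.mem_singleton, not_or] at ha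
    have hb : -1 - a ≠ -1 := fun h' => ha.2 (by linear_combination -h')
    have h9 : X s = X a * X (-1 - a) := by
      rw [← hX, hs]
      congr 1
      ring
    have h10 : Y s = Y a * Y (-1 - a) := by
      rw [← hY, hs]
      congr 1
      ring
    rw [h10, ← key a ha.1, ← key (-1 - a) hb, h9]
    group
  · exact key s hs

end sl2

theorem pf_NEL : T_NEL := by
  intro l C hC F Γ _ _ _ x τ cd i
  set α : Root C := sr hC i with hα
  set X : F → Γ := x α with hXd
  set Y : F → Γ := x (ng α) with hYd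
  set h : Fˣ → Γ := fun a => τ (Pi.mulSingle i a) with hhd
  have hX : ∀ s t, X (s + t) = X s * X t := fun s t => cd.add _ s t
  have hY : ∀ s t, Y (s + t) = Y s * Y t := fun s t => cd.add _ s t
  have hsl : ∀ (s t : F) (c : Fˣ), (c : F) = 1 - s * t →
      X s * Y t = Y (t / c) * h c * X (s / c) := fun s t c hc =>
    cd.slt i α (ng α) rfl rfl s t c hc
  have hipαα : ip C (si i) (si i) = 2 := by rw [ip_si_si, hC.diag]
  have hh : ∀ (a : Fˣ) (t : F), h a * X t = X ((a : F) ^ 2 * t) * h a := by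
    intro a t
    have h1 := cd.tor (Pi.mulSingle i a) α t
    rw [h1, chi_single]
    have h2 : ip C α.1 (si i) = 2 := hipαα
    rw [h2]
    congr 3
  have hm : ∀ a b, h (a * b) = h a * h b := by
    intro a b
    simp only [hhd]
    rw [Pi.mulSingle_mul, map_mul]
  set n : Γ := X 1 * Y 1 * X 1 with hn
  have hna : ∀ a : Fˣ, X a * Y (a : F)⁻¹ * X a = h a * n := na hX hY hsl hh
  have hninv : n⁻¹ = h (-1) * n := by
    rw [← hna, hn]
    have h1 : ((-1 : Fˣ) : F) = -1 := by simp
    rw [h1, inv_neg, inv_one, Xneg hX, Xneg hY]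
    group
  have hnn : n * n = τ (Pi.mulSingle i (-1))⁻¹ := by
    rw [map_inv]
    have h1 : τ (Pi.mulSingle i (-1)) = h (-1) := rfl
    rw [h1]
    have h2 : h (-1) * (n * n) = 1 := by
      rw [← mul_assoc, ← hninv, inv_mul_cancel]
    exact eq_inv_of_mul_eq_one_right h2
  have hnX : ∀ s, n * X s * n⁻¹ = Y s := nX hX hY hsl hh hm
  have htor : ∀ (c : Fin l → Fˣ) (β : Root C) (t : F),
      τ c * x β t * (τ c)⁻¹ = x β ((chi C c β.1 : F) * t) := by
    intro c β t
    rw [cd.tor, mul_inv_cancel_right]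
  -- conjugation with `n⁻¹`
  have hconj : ∀ g, n⁻¹ * g * n = h (-1) * (n * g * n⁻¹) * (h (-1))⁻¹ := by
    intro g
    have h1 : n = n⁻¹ * (h (-1))⁻¹ := by
      rw [← mul_inv_rev, ← hninv, inv_inv]
    calc n⁻¹ * g * n = (h (-1) * n) * g * (n⁻¹ * (h (-1))⁻¹) := by
          rw [← hninv, ← h1]
      _ = h (-1) * (n * g * n⁻¹) * (h (-1))⁻¹ := by group
  -- the torus
  have hT1 : ∀ c, ∃ c', n * τ c * n⁻¹ = τ c' := by
    intro c
    set a : Fˣ := (chi C c α.1)⁻¹ with ha
    have hXc : ∀ t, (τ c)⁻¹ * X t * τ c = X ((a : F) * t) := by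
      intro t
      have h1 := cd.tor c α ((a : F) * t)
      have h2 : ((chi C c α.1 : Fˣ) : F) * ((a : F) * t) = t := by
        rw [← mul_assoc, ha, Units.mul_inv, one_mul]
      rw [h2] at h1
      rw [mul_assoc, ← h1, inv_mul_cancel_left]
    have hYc : ∀ t, (τ c)⁻¹ * Y t * τ c = Y ((a : F)⁻¹ * t) := by
      intro t
      have h1 := cd.tor c (ng α) ((a : F)⁻¹ * t)
      have h2 : ((chi C c (ng α).1 : Fˣ) : F) * ((a : F)⁻¹ * t) = t := by
        rw [ng_val, chi_neg, ← ha, ← mul_assoc, mul_inv_cancel₀ a.ne_zero, one_mul]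
      rw [h2] at h1
      rw [mul_assoc, ← h1, inv_mul_cancel_left]
    have h3 : (τ c)⁻¹ * n * τ c = h a * n := by
      rw [← hna]
      have h4 := hXc 1
      have h5 := hYc 1
      rw [mul_one] at h4 h5
      rw [← h4, ← h5, hn]
      group
    refine ⟨c * Pi.mulSingle i a, ?_⟩
    rw [map_mul]
    have h6 : n * τ c = τ c * (h a * n) := by
      rw [← h3]
      group
    rw [h6]
    simp only [hhd]
    group
  have hT2 : ∀ c, ∃ c', n⁻¹ * τ c * n = τ c' := by
    intro c
    obtain ⟨c', hc'⟩ := hT1 c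
    refine ⟨Pi.mulSingle i (-1) * c' * (Pi.mulSingle i (-1))⁻¹, ?_⟩
    rw [hconj, hc', map_mul, map_mul, map_inv]
  -- the reflection
  have hw2 : ∀ v : Fin l → ℤ, (v - ip C v (si i) • si i) -
      ip C (v - ip C v (si i) • si i) (si i) • si i = v := by
    intro v
    rw [ip_sub_left, ip_smul_left, hipαα]
    have h1 : ip C v (si i) - ip C v (si i) * 2 = - ip C v (si i) := by ring
    rw [h1, neg_smul]
    abel
  let w : (Fin l → ℤ) ≃+ (Fin l → ℤ) :=
    { toFun := fun v => v - ip C v (si i) • si i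
      invFun := fun v => v - ip C v (si i) • si i
      left_inv := hw2
      right_inv := hw2
      map_add' := fun u v => by
        rw [ip_add_left, add_smul]
        abel }
  have hw : ∀ v, w v = v - ip C v (si i) • si i := fun v => rfl
  -- case -1
  have hm1 : ∀ γ δ : Root C, δ.1 = γ.1 + si i → ip C γ.1 (si i) = -1 → ∀ t,
      n * x γ t * n⁻¹ = x δ ((eps C (si i) γ.1 : F) * t) := by
    intro γ δ hδ hγ t
    have hγ' : ip C (si i) γ.1 = -1 := by rw [ip_comm hC, hγ]
    have c1 : ∀ s t, X s * x γ t = x δ ((eps C (si i) γ.1 : F) * s * t) * (x γ t * X s) :=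
      fun s t => cd.com α γ δ (by rw [hδ, add_comm]; rfl) s t
    have e1 : eps C (-si i) δ.1 = - eps C (si i) γ.1 := by
      rw [hδ, eps_add_right]
      have e2 : ∀ v : Fin l → ℤ, eps C (-si i) v = eps C (si i) v := by
        intro v
        unfold eps
        rw [ar_neg_left, sg_neg]
      rw [e2, e2]
      have e3 : eps C (si i) (si i) = -1 := eps_self hC α
      rw [e3]
      ring
    have c2 : ∀ s t, Y s * x δ t =
        x γ (-(eps C (si i) γ.1 : F) * s * t) * (x δ t * Y s) := by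
      intro s t
      have := cd.com (ng α) δ γ (by rw [hδ, ng_val, hα, sr_val]; abel) s t
      rw [ng_val, hα, sr_val, e1] at this
      rw [hYd, hα, this]
      push_cast
      rfl
    have c3 : ∀ s t, X s * x δ t = x δ t * X s := fun s t => cd.cmm α δ (by
      rw [hδ, hα, sr_val, ip_add_right, hγ', hipαα]; norm_num) s t
    have c4 : ∀ s t, Y s * x γ t = x γ t * Y s := fun s t => cd.cmm (ng α) γ (by
      rw [ng_val, hα, sr_val, ip_neg_left, hγ']; norm_num) s t
    have c5 : ∀ s t, x γ s * x δ t = x δ t * x γ s := fun s t => cd.cmm γ δ (by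
      rw [hδ, ip_add_right, hγ, ip_self]; norm_num) s t
    have hee : (eps C (si i) γ.1 : F) * (eps C (si i) γ.1 : F) = 1 := eps_mul_self_F _ _
    have hγn : x γ (-t) = (x γ t)⁻¹ := Xneg (fun s t => cd.add γ s t) t
    have d1 : X 1 * x γ t = x δ ((eps C (si i) γ.1 : F) * t) * x γ t * X 1 := by
      rw [c1, mul_one, mul_assoc]
    have d2 : Y 1 * x δ ((eps C (si i) γ.1 : F) * t) =
        x γ (-t) * x δ ((eps C (si i) γ.1 : F) * t) * Y 1 := by
      have e4 : -(eps C (si i) γ.1 : F) * 1 * ((eps C (si i) γ.1 : F) * t) = -t := by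
        linear_combination (-t) * hee
      rw [c2, e4, mul_assoc]
    have d3 : Y 1 * (x δ ((eps C (si i) γ.1 : F) * t) * x γ t) =
        x δ ((eps C (si i) γ.1 : F) * t) * Y 1 := by
      rw [← mul_assoc, d2, hγn, mul_assoc, c4]
      rw [← mul_assoc, mul_assoc ((x γ t)⁻¹), ← c5]
      group
    rw [mul_inv_eq_iff_eq_mul, hn]
    calc X 1 * Y 1 * X 1 * x γ t = X 1 * Y 1 * (X 1 * x γ t) := by group
      _ = X 1 * (Y 1 * (x δ ((eps C (si i) γ.1 : F) * t) * x γ t)) * X 1 := by
          rw [d1]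
          group
      _ = (X 1 * x δ ((eps C (si i) γ.1 : F) * t)) * Y 1 * X 1 := by
          rw [d3]
          group
      _ = x δ ((eps C (si i) γ.1 : F) * t) * (X 1 * Y 1 * X 1) := by
          rw [c3]
          group
  -- all roots, one direction
  have hroot : ∀ γ : Root C, ∃ γ' : Root C, γ'.1 = w γ.1 ∧
      ∀ t, ∃ t', n * x γ t * n⁻¹ = x γ' t' := by
    intro γ
    have hlo := neg_two_le_ip hC γ α
    have hhi := ip_le_two hC γ α
    have hval : α.1 = si i := rfl
    rw [hval] at hlo hhi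
    have hcases : ip C γ.1 (si i) = -2 ∨ ip C γ.1 (si i) = -1 ∨ ip C γ.1 (si i) = 0 ∨
        ip C γ.1 (si i) = 1 ∨ ip C γ.1 (si i) = 2 := by omega
    rcases hcases with h0 | h0 | h0 | h0 | h0
    · have hγ : α.1 = -γ.1 := ip_eq_neg_two hC γ α h0
      have hγ2 : γ = ng α := Subtype.ext (by rw [ng_val, hγ, neg_neg])
      refine ⟨α, ?_, fun t => ?_⟩
      · rw [hw, h0, hγ2, ng_val, hval]
        rw [neg_smul, two_smul]
        abel
      · refine ⟨((chi C (Pi.mulSingle i (-1) : Fin l → Fˣ)⁻¹ α.1 : Fˣ) : F) * t, ?_⟩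
        rw [hγ2]
        have h1 : x (ng α) t = n * X t * n⁻¹ := (hnX t).symm
        rw [h1, ← htor, ← hnn]
        simp only [hXd]
        group
    · refine ⟨ad hC γ α h0, ?_, fun t => ⟨_, hm1 γ (ad hC γ α h0) rfl h0 t⟩⟩
      rw [hw, h0, ad_val, hval]
      rw [neg_smul, one_smul, sub_neg_eq_add]
    · refine ⟨γ, ?_, fun t => ⟨t, ?_⟩⟩
      · rw [hw, h0, zero_smul, sub_zero]
      · have h0' : ip C (si i) γ.1 = 0 := by rw [ip_comm hC, h0]
        have c1 : ∀ s t, X s * x γ t = x γ t * X s := fun s t => cd.cmm α γ (by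
          rw [hval, h0']) s t
        have c2 : ∀ s t, Y s * x γ t = x γ t * Y s := fun s t => cd.cmm (ng α) γ (by
          rw [ng_val, hval, ip_neg_left, h0']; norm_num) s t
        rw [mul_inv_eq_iff_eq_mul, hn]
        calc X 1 * Y 1 * X 1 * x γ t = X 1 * Y 1 * (X 1 * x γ t) := by group
          _ = X 1 * (Y 1 * x γ t) * X 1 := by
              rw [c1]
              group
          _ = (X 1 * x γ t) * Y 1 * X 1 := by
              rw [c2]
              group
          _ = x γ t * (X 1 * Y 1 * X 1) := by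
              rw [c1]
              group
    · have hδ1 : ip C (sb hC γ α h0).1 (si i) = -1 := by
        rw [sb_val, ip_sub_left, h0, hval, hipαα]
        norm_num
      have hδ2 : γ.1 = (sb hC γ α h0).1 + si i := by
        rw [sb_val, hval]
        abel
      refine ⟨sb hC γ α h0, ?_, fun t => ?_⟩
      · rw [hw, h0, sb_val, hval, one_smul]
      · have h1 := hm1 (sb hC γ α h0) γ hδ2 hδ1 ((eps C (si i) (sb hC γ α h0).1 : F) * t)
        rw [← mul_assoc ((eps C (si i) (sb hC γ α h0).1 : ℤ) : F), eps_mul_self_F, one_mul] at h1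
        refine ⟨((chi C (Pi.mulSingle i (-1) : Fin l → Fˣ)⁻¹ (sb hC γ α h0).1 : Fˣ) : F) *
          ((eps C (si i) (sb hC γ α h0).1 : F) * t), ?_⟩
        rw [← h1]
        have h2 : n * (n * x (sb hC γ α h0) ((eps C (si i) (sb hC γ α h0).1 : F) * t) * n⁻¹) *
            n⁻¹ = (n * n) * x (sb hC γ α h0) ((eps C (si i) (sb hC γ α h0).1 : F) * t) *
              (n * n)⁻¹ := by group
        rw [h2, hnn, htor]
    · have hγ : γ = α := ip_eq_two hC γ α h0
      refine ⟨ng α, ?_, fun t => ⟨t, ?_⟩⟩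
      · rw [hw, h0, hγ, ng_val, hval]
        rw [two_smul]
        abel
      · rw [hγ]
        exact hnX t
  refine ⟨n, w, ⟨hT1, hT2, fun γ => ?_⟩, hw, ⟨_, hnn⟩, rfl, fun t ht => ?_⟩
  · obtain ⟨γ', h1, h2⟩ := hroot γ
    refine ⟨γ', h1, h2, fun t => ?_⟩
    obtain ⟨γ'', h3, h4⟩ := hroot γ'
    have h5 : γ'' = γ := by
      refine Subtype.ext ?_
      rw [h3, h1]
      exact hw2 γ.1
    obtain ⟨t', ht'⟩ := h4 t
    rw [h5] at ht'
    refine ⟨((chi C (Pi.mulSingle i (-1) : Fin l → Fˣ) γ.1 : Fˣ) : F) * t', ?_⟩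
    rw [hconj, ht', ← htor]
  · refine ⟨-(t⁻¹), Pi.mulSingle i (Units.mk0 t ht)⁻¹, -(t⁻¹), ?_⟩
    have h1 := hna (Units.mk0 t ht)⁻¹
    rw [Units.val_inv_eq_inv_val, Units.val_mk0, inv_inv] at h1
    have h2 : X (-(t⁻¹)) = (X t⁻¹)⁻¹ := Xneg hX _
    have h3 : Y t = (X t⁻¹)⁻¹ * (h (Units.mk0 t ht)⁻¹ * n) * (X t⁻¹)⁻¹ := by
      rw [← h1]
      group
    change Y t = X (-(t⁻¹)) * h (Units.mk0 t ht)⁻¹ * n * X (-(t⁻¹))
    rw [h2, h3]
    group

end Pool.Agent.H83.KGR
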